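import Mathlib
import Pool.Agent.Work.MP_def58e_two.C7.Ker
import Pool.Agent.Work.MP_def58e_two.C7.CA
import Pool.Agent.Work.MP_def58e_two.C7.CB

/-!
The two inequalities for the kernels, the diagonal, and the result.
Generated by a program.
-/

namespace MPdef58eC7

open MPdef58e MPdef58eHole MPdef58eTwo

noncomputable section

set_option maxRecDepth 100000

theorem kerP (u v t : ℝ) : ker FP 0 u v t =
    qq 0 (u + v) (u * v) t * SP0 (u + v) (u * v)
    + qq 1 (u + v) (u * v) t * SP1 (u + v) (u * v)
    + qq 2 (u + v) (u * v) t * SP2 (u + v) (u * v)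
    + qq 3 (u + v) (u * v) t * SP3 (u + v) (u * v)
    + qq 4 (u + v) (u * v) t * SP4 (u + v) (u * v)
    + qq 5 (u + v) (u * v) t * SP5 (u + v) (u * v)
    + qq 6 (u + v) (u * v) t * SP6 (u + v) (u * v)
    + qq 7 (u + v) (u * v) t * SP7 (u + v) (u * v) := by
  simp only [FP, ker, add_zero, SP0_eq, SP1_eq, SP2_eq, SP3_eq, SP4_eq, SP5_eq, SP6_eq, SP7_eq]
  norm_num only [(Q_eq_qq _ u v t).1]
  ring

theorem kerM (u v t : ℝ) : ker FM 0 u v t =
    qq 0 (u + v) (u * v) t * SM0 (u + v) (u * v)
    + qq 1 (u + v) (u * v) t * SM1 (u + v) (u * v)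
    + qq 2 (u + v) (u * v) t * SM2 (u + v) (u * v)
    + qq 3 (u + v) (u * v) t * SM3 (u + v) (u * v)
    + qq 4 (u + v) (u * v) t * SM4 (u + v) (u * v)
    + qq 5 (u + v) (u * v) t * SM5 (u + v) (u * v)
    + qq 6 (u + v) (u * v) t * SM6 (u + v) (u * v)
    + qq 7 (u + v) (u * v) t * SM7 (u + v) (u * v) := by
  simp only [FM, ker, add_zero, SM0_eq, SM1_eq, SM2_eq, SM3_eq, SM4_eq, SM5_eq, SM6_eq, SM7_eq]
  norm_num only [(Q_eq_qq _ u v t).1]
  ring

theorem pairA (s p t : ℝ) : gg1s s p / 20 - (qq 0 s p t * SP0 s p + qq 1 s p t * SP1 s p + qq 2 s p t * SP2 s p + qq 3 s p t * SP3 s p + qq 4 s p t * SP4 s p + qq 5 s p t * SP5 s p + qq 6 s p t * SP6 s p + qq 7 s p t * SP7 s p)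
    - (qq 0 s p t * SM0 s p + qq 1 s p t * SM1 s p + qq 2 s p t * SM2 s p + qq 3 s p t * SM3 s p + qq 4 s p t * SM4 s p + qq 5 s p t * SM5 s p + qq 6 s p t * SM6 s p + qq 7 s p t * SM7 s p) = GA s p t := by
  simp only [qq]
  unfold GA gg1s SP0 SM0 SP1 SM1 SP2 SM2 SP3 SM3 SP4 SM4 SP5 SM5 SP6 SM6 SP7 SM7
  ring

theorem pairB (s p t : ℝ) : gg2s s p / 22 - (qq 0 s p t * SP0 s p + qq 1 s p t * SP1 s p + qq 2 s p t * SP2 s p + qq 3 s p t * SP3 s p + qq 4 s p t * SP4 s p + qq 5 s p t * SP5 s p + qq 6 s p t * SP6 s p + qq 7 s p t * SP7 s p)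
    + (qq 0 s p t * SM0 s p + qq 1 s p t * SM1 s p + qq 2 s p t * SM2 s p + qq 3 s p t * SM3 s p + qq 4 s p t * SM4 s p + qq 5 s p t * SM5 s p + qq 6 s p t * SM6 s p + qq 7 s p t * SM7 s p) = GB s p t := by
  simp only [qq]
  unfold GB gg2s SP0 SM0 SP1 SM1 SP2 SM2 SP3 SM3 SP4 SM4 SP5 SM5 SP6 SM6 SP7 SM7
  ring

/-- the diagonal polynomial -/
def HU (u : ℝ) : ℝ :=
  ((86383298818581/1000000000000000000) + (-4157696567939/50000000000000000)*u
    + (-522958977401407/1000000000000000000)*u^2 + (143890150086379/62500000000000000)*u^3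
    + (15228636180996867/1000000000000000000)*u^4 + (2722464715540493/250000000000000000)*u^5
    + (-9737031182230589/250000000000000000)*u^6
    + (-340117788587158462149470185504247/6400000000000000000000000000000000)*u^7
    + (2510064001219099/250000000000000000)*u^8 + (13600629398829683/500000000000000000)*u^9
    + (-12081632849294147/500000000000000000)*u^10 + (-3901732477571269/100000000000000000)*u^11)
  + ((-10170153184583271/1000000000000000000)*u^12 + (4885296078631821/500000000000000000)*u^13
    + (6764917676394027/1000000000000000000)*u^14)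

theorem HU_ge {u : ℝ} (h1 : -1 ≤ u) (h2 : u ≤ (119/200)) : (1/100000) ≤ HU u := by
  have h : HU u = (1/100000) + (
      ((2361479/500000000) + (-3831719/500000000)*u + (-118428383/1000000000)*u^2 + (25540857/1000000000)*u^3 + (121014579/200000000)*u^4 + (209952013/1000000000)*u^5 + (-440978279/500000000)*u^6 + (-310500977/500000000)*u^7)^2
      + ((26628699/1000000000)*u + (13511681/500000000)*u^2 + (-265899347/1000000000)*u^3 + (-201909887/500000000)*u^4 + (7709963/20000000)*u^5 + (940683351/1000000000)*u^6 + (416796293/1000000000)*u^7)^2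
      + ((81963469/1000000000)*u^2 + (1952819/50000000)*u^3 + (-263634619/500000000)*u^4 + (-17000957/50000000)*u^5 + (404281631/500000000)*u^6 + (335284283/500000000)*u^7)^2
      + ((85279939/500000000)*u^3 + (162000999/500000000)*u^4 + (-156278089/500000000)*u^5 + (-3763283/4000000)*u^6 + (-474842383/1000000000)*u^7)^2
      + ((213221541/1000000000)*u^4 + (140575679/1000000000)*u^5 + (-22321571/40000000)*u^6 + (-19741169/40000000)*u^7)^2
      + ((12495203/250000000)*u^5 + (7379027/1000000000)*u^6 + (-26346273/500000000)*u^7)^2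
      + ((29568663/500000000)*u^6 + (65605929/1000000000)*u^7)^2
      + ((114733/12500000)*u^7)^2
      + (12688971494717421/400000000000000000000)*(1)^2
      + (688535578738289/400000000000000000000)*(u)^2
      + (689306825301999/400000000000000000000)*(u^2)^2
      + (21957400013364122529814495753/12800000000000000000000000000000000)*(u^3)^2
      + (21989702714402394529814495753/12800000000000000000000000000000000)*(u^4)^2
      + (687757506782753/400000000000000000000)*(u^5)^2
      + (68825168334591/40000000000000000000)*(u^6)^2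
      + (34407691031581/20000000000000000000)*(u^7)^2
      + (178956691621/400000000000000000000)*(1 - u)^2
      + (59892669479/200000000000000000000)*(u + u^2)^2
      + (236909580373/400000000000000000000)*(u^2 - u^3)^2
      + (75912184964933470185504247/12800000000000000000000000000000000)*(u^3 - u^4)^2
      + (260697895569/400000000000000000000)*(u^4 - u^5)^2
      + (76446949643/40000000000000000000)*(u^5 + u^6)^2
      + (22267985519/20000000000000000000)*(u^6 - u^7)^2)
      + ((119/200) - u)*(1 + u)*(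
      ((6129429/1000000000) + (610221/1000000000)*u + (-126532853/1000000000)*u^2 + (-21212431/125000000)*u^3 + (291557631/1000000000)*u^4 + (616004907/1000000000)*u^5 + (5454351/20000000)*u^6)^2
      + ((36426023/1000000000)*u + (306373/250000000)*u^2 + (-25576873/62500000)*u^3 + (-4804647/20000000)*u^4 + (879116191/1000000000)*u^5 + (386535041/500000000)*u^6)^2
      + ((56901527/500000000)*u^2 + (24612703/100000000)*u^3 + (-144318789/500000000)*u^4 + (-939737773/1000000000)*u^5 + (-26055757/50000000)*u^6)^2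
      + ((112181423/500000000)*u^3 + (4033549/20000000)*u^4 + (-615669407/1000000000)*u^5 + (-315095961/500000000)*u^6)^2
      + ((54031837/250000000)*u^4 + (92185637/200000000)*u^5 + (119980043/500000000)*u^6)^2
      + ((239342431/1000000000)*u^5 + (140829027/500000000)*u^6)^2
      + ((36351/1250000)*u^6)^2) := by
    unfold HU; ring
  rw [h]
  have e1 : 0 ≤ (119/200) - u := sub_nonneg.2 h2
  have e2 : 0 ≤ 1 + u := by linarith
  have e3 : 0 ≤ (
      ((2361479/500000000) + (-3831719/500000000)*u + (-118428383/1000000000)*u^2 + (25540857/1000000000)*u^3 + (121014579/200000000)*u^4 + (209952013/1000000000)*u^5 + (-440978279/500000000)*u^6 + (-310500977/500000000)*u^7)^2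
      + ((26628699/1000000000)*u + (13511681/500000000)*u^2 + (-265899347/1000000000)*u^3 + (-201909887/500000000)*u^4 + (7709963/20000000)*u^5 + (940683351/1000000000)*u^6 + (416796293/1000000000)*u^7)^2
      + ((81963469/1000000000)*u^2 + (1952819/50000000)*u^3 + (-263634619/500000000)*u^4 + (-17000957/50000000)*u^5 + (404281631/500000000)*u^6 + (335284283/500000000)*u^7)^2
      + ((85279939/500000000)*u^3 + (162000999/500000000)*u^4 + (-156278089/500000000)*u^5 + (-3763283/4000000)*u^6 + (-474842383/1000000000)*u^7)^2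
      + ((213221541/1000000000)*u^4 + (140575679/1000000000)*u^5 + (-22321571/40000000)*u^6 + (-19741169/40000000)*u^7)^2
      + ((12495203/250000000)*u^5 + (7379027/1000000000)*u^6 + (-26346273/500000000)*u^7)^2
      + ((29568663/500000000)*u^6 + (65605929/1000000000)*u^7)^2
      + ((114733/12500000)*u^7)^2
      + (12688971494717421/400000000000000000000)*(1)^2
      + (688535578738289/400000000000000000000)*(u)^2
      + (689306825301999/400000000000000000000)*(u^2)^2
      + (21957400013364122529814495753/12800000000000000000000000000000000)*(u^3)^2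
      + (21989702714402394529814495753/12800000000000000000000000000000000)*(u^4)^2
      + (687757506782753/400000000000000000000)*(u^5)^2
      + (68825168334591/40000000000000000000)*(u^6)^2
      + (34407691031581/20000000000000000000)*(u^7)^2
      + (178956691621/400000000000000000000)*(1 - u)^2
      + (59892669479/200000000000000000000)*(u + u^2)^2
      + (236909580373/400000000000000000000)*(u^2 - u^3)^2
      + (75912184964933470185504247/12800000000000000000000000000000000)*(u^3 - u^4)^2
      + (260697895569/400000000000000000000)*(u^4 - u^5)^2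
      + (76446949643/40000000000000000000)*(u^5 + u^6)^2
      + (22267985519/20000000000000000000)*(u^6 - u^7)^2) := by positivity
  have e4 : 0 ≤ ((119/200) - u)*(1 + u)*(
      ((6129429/1000000000) + (610221/1000000000)*u + (-126532853/1000000000)*u^2 + (-21212431/125000000)*u^3 + (291557631/1000000000)*u^4 + (616004907/1000000000)*u^5 + (5454351/20000000)*u^6)^2
      + ((36426023/1000000000)*u + (306373/250000000)*u^2 + (-25576873/62500000)*u^3 + (-4804647/20000000)*u^4 + (879116191/1000000000)*u^5 + (386535041/500000000)*u^6)^2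
      + ((56901527/500000000)*u^2 + (24612703/100000000)*u^3 + (-144318789/500000000)*u^4 + (-939737773/1000000000)*u^5 + (-26055757/50000000)*u^6)^2
      + ((112181423/500000000)*u^3 + (4033549/20000000)*u^4 + (-615669407/1000000000)*u^5 + (-315095961/500000000)*u^6)^2
      + ((54031837/250000000)*u^4 + (92185637/200000000)*u^5 + (119980043/500000000)*u^6)^2
      + ((239342431/1000000000)*u^5 + (140829027/500000000)*u^6)^2
      + ((36351/1250000)*u^6)^2) := by positivity
  linarith

theorem ker_diag (u : ℝ) : ker FP 0 u u 1 + ker FM 0 u u 1 = - gg1 u - gg2 u - HU u := by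
  simp only [FP, FM, ker, add_zero, SP0_eq, SP1_eq, SP2_eq, SP3_eq, SP4_eq, SP5_eq, SP6_eq, SP7_eq, SM0_eq, SM1_eq, SM2_eq, SM3_eq, SM4_eq, SM5_eq, SM6_eq, SM7_eq]
  norm_num only [(Q_diag _ u).1]
  unfold HU gg1 gg2 SP0 SP1 SP2 SP3 SP4 SP5 SP6 SP7 SM0 SM1 SM2 SM3 SM4 SM5 SM6 SM7
  ring

/-- **Two families of unit vectors.** -/
theorem no_pair (a b : Fin 11 → Fin 3 → ℝ) (e : Fin 3 → ℝ)
    (ha : ∀ i, IsUnit3 (a i)) (hb : ∀ i, IsUnit3 (b i)) (he : IsUnit3 e)
    (haa : ∀ i j, i ≠ j → ip (a i) (a j) ≤ 1 / 2) (hbb : ∀ i j, i ≠ j → ip (b i) (b j) ≤ 1 / 2)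
    (hae : ∀ i, ip (a i) e ≤ 119/200) (hbe : ∀ i, ip (b i) e ≤ 119/200)
    (hab : ∀ i j, ip (a i) (b j) ≤ 1 + 19/200 - (ip (a i) e + ip (b j) e)
      + 2 * (ip (a i) e * ip (b j) e)) : False := by
  refine no_double (N := 11) (by norm_num) a b e ha hb he FP FM gg1 gg2 (1/100000) (119/200) (19/200)
    (by norm_num) ?_ ?_ ?_ haa hbb hae hbe hab
  · intro u h1 h2
    have := HU_ge h1 h2
    rw [ker_diag]
    linarith
  · intro u v t hu hv ht
    have h := pairA (u + v) (u * v) t
    have h2 := GA_nonneg (s := u + v) (p := u * v) (t := t)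
      (by nlinarith [sq_nonneg (u - v)]) ht
      (by nlinarith [mul_nonneg (sub_nonneg.2 hu) (sub_nonneg.2 hv)])
    rw [kerP, kerM, gg1s_eq]
    norm_num
    linarith
  · intro u v t hu hv ht
    have h := pairB (u + v) (u * v) t
    have h2 := GB_nonneg (s := u + v) (p := u * v) (t := t)
      (by nlinarith [sq_nonneg (u - v)]) (by linarith)
      (by nlinarith [mul_nonneg (sub_nonneg.2 hu) (sub_nonneg.2 hv)])
    rw [kerP, kerM, gg2s_eq]
    norm_num
    linarith

end

end MPdef58eC7

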